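import Mathlib
import Pool.Agent.H8.BCov

set_option autoImplicit false

namespace Pool.Agent.Results.MP_c563c8_gt.CH

open Set Pool.Agent.H8.BCov

theorem result (h : Cardinal.continuum.{0} = Cardinal.aleph 1) : ∃ X Y : Set ℝ, Y ⊆ X ∧
    (Sone (BO X) (BO X) ∧ ¬ Sone (BO Y) (BO Y)) ∧ (Sfin (BO X) (BO X) ∧ ¬ Sfin (BO Y) (BO Y)) := by
  obtain ⟨X, Y, h1, h2, h3, -⟩ := main h
  exact ⟨X, Y, h1, ⟨h2.bo, fun h => h3 h.fin⟩, h2.bo.fin, h3⟩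

end Pool.Agent.Results.MP_c563c8_gt.CH
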